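import Pool.Agent.W2helper57.LD.Stm

/-! Project LD, piece POLY: the estimator is a polynomial of degree at most `6 (v+1)²`. -/

set_option autoImplicit false

open Pool.Agent.N602.PC

namespace Pool.Agent.W2helper57.LD

/-- `F` is given by a polynomial of degree at most `d` in the edge indicators. -/
def IsPol {n : ℕ} (d : ℕ) (F : Input n → ℝ) : Prop :=
  ∃ f : MvPolynomial (Edge n) ℝ, f.totalDegree ≤ d ∧ ∀ Y : Input n, ev f Y = F Y

theorem isPol_const {n : ℕ} (c : ℝ) : IsPol (n := n) 0 (fun _ => c) :=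
  ⟨MvPolynomial.C c, by simp, fun Y => by simp [ev]⟩

theorem IsPol.mono {n d e : ℕ} {F : Input n → ℝ} (h : IsPol d F) (hde : d ≤ e) : IsPol e F := by
  obtain ⟨f, h1, h2⟩ := h
  exact ⟨f, h1.trans hde, h2⟩

theorem IsPol.add {n d : ℕ} {F G : Input n → ℝ} (hF : IsPol d F) (hG : IsPol d G) :
    IsPol d (fun Y => F Y + G Y) := by
  obtain ⟨f, h1, h2⟩ := hF
  obtain ⟨g, h3, h4⟩ := hG
  refine ⟨f + g, (MvPolynomial.totalDegree_add f g).trans (max_le h1 h3), fun Y => ?_⟩
  show ev (f + g) Y = F Y + G Y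
  rw [← h2 Y, ← h4 Y]
  simp [ev]

theorem IsPol.mul {n d e : ℕ} {F G : Input n → ℝ} (hF : IsPol d F) (hG : IsPol e G) :
    IsPol (d + e) (fun Y => F Y * G Y) := by
  obtain ⟨f, h1, h2⟩ := hF
  obtain ⟨g, h3, h4⟩ := hG
  refine ⟨f * g, (MvPolynomial.totalDegree_mul f g).trans (add_le_add h1 h3), fun Y => ?_⟩
  show ev (f * g) Y = F Y * G Y
  rw [← h2 Y, ← h4 Y]
  simp [ev]

theorem isPol_sum {n d : ℕ} {κ : Type*} (s : Finset κ) (F : κ → Input n → ℝ)
    (h : ∀ i ∈ s, IsPol d (F i)) : IsPol d (fun Y => ∑ i ∈ s, F i Y) := by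
  classical
  induction s using Finset.induction_on with
  | empty => simpa using (isPol_const (n := n) 0).mono (Nat.zero_le d)
  | insert a s ha ih =>
    have h1 := (h a (Finset.mem_insert_self a s)).add
      (ih fun i hi => h i (Finset.mem_insert_of_mem hi))
    refine cast (congrArg (IsPol d) ?_) h1
    funext Y
    rw [Finset.sum_insert ha]

theorem isPol_prod {n d : ℕ} {κ : Type*} (s : Finset κ) (F : κ → Input n → ℝ)
    (h : ∀ i ∈ s, IsPol d (F i)) : IsPol (s.card * d) (fun Y => ∏ i ∈ s, F i Y) := by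
  classical
  induction s using Finset.induction_on with
  | empty => simpa using (isPol_const (n := n) 1)
  | insert a s ha ih =>
    have h1 := (h a (Finset.mem_insert_self a s)).mul
      (ih fun i hi => h i (Finset.mem_insert_of_mem hi))
    rw [Finset.card_insert_of_notMem ha]
    have h2 : (s.card + 1) * d = d + s.card * d := by ring
    rw [h2]
    refine cast (congrArg (IsPol _) ?_) h1
    funext Y
    rw [Finset.prod_insert ha]

theorem isPol_sg {n : ℕ} (a b : Fin n) : IsPol 1 (fun Y : Input n => sg Y a b) := by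
  have key : ∀ e : Edge n, IsPol 1 (fun Y : Input n => if Y e = true then (1 : ℝ) else -1) := by
    intro e
    refine ⟨MvPolynomial.C 2 * MvPolynomial.X e + MvPolynomial.C (-1), ?_, fun Y => ?_⟩
    · refine (MvPolynomial.totalDegree_add _ _).trans (max_le ?_ (by simp))
      refine (MvPolynomial.totalDegree_mul _ _).trans ?_
      simp
    · by_cases h : Y e = true
      · simp [ev, h]; norm_num
      · simp [ev, h]
  unfold sg
  by_cases h : a < b
  · simp only [h, dif_pos]
    exact key _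
  · by_cases h' : b < a
    · simp only [h, h', dif_pos, dif_neg, not_false_iff]
      exact key _
    · simp only [h, h', dif_neg, not_false_iff]
      exact (isPol_const 1).mono (Nat.zero_le 1)

theorem isPol_Fg {n v N : ℕ} (r : Fin n) (u : Fin (v + 1) → Fin N → Fin n)
    (g : Fin (v + 1) → Fin N) : IsPol ((v + 1) ^ 2) (fun Y => Fg r u g Y) := by
  have h1 : IsPol 1 (fun Y : Input n => sg Y r (u 0 (g 0))) := isPol_sg _ _
  have h2 : IsPol ((Finset.univ : Finset (Fin v)).card * 1)
      (fun Y : Input n => ∏ j : Fin v, sg Y (u 0 (g 0)) (u j.succ (g j.succ))) :=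
    isPol_prod _ _ fun j _ => isPol_sg _ _
  have h3 : IsPol ((prs v).card * 1)
      (fun Y : Input n => ∏ x ∈ prs v, (1 + sg Y (u x.1.succ (g x.1.succ))
        (u x.2.succ (g x.2.succ)))) :=
    isPol_prod _ _ fun x _ => ((isPol_const 1).mono (Nat.zero_le 1)).add (isPol_sg _ _)
  refine ((h1.mul h2).mul h3).mono ?_
  have h4 : (prs v).card ≤ v * v := by
    refine (Finset.card_filter_le _ _).trans ?_
    simp
  rw [Finset.card_univ, Fintype.card_fin]
  nlinarith

theorem isPol_H {n v N : ℕ} (r : Fin n) (u : Fin (v + 1) → Fin N → Fin n) :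
    IsPol ((v + 1) ^ 2) (fun Y => H r u Y) :=
  isPol_sum _ _ fun g _ => isPol_Fg r u g

theorem isPol_one_sub {n d : ℕ} {F : Input n → ℝ} (h : IsPol d F) :
    IsPol d (fun Y => 1 - F Y) := by
  have h1 := ((isPol_const (n := n) (-1)).mul h)
  rw [zero_add] at h1
  have h2 := ((isPol_const (n := n) 1).mono (Nat.zero_le d)).add h1
  refine cast (congrArg (IsPol d) ?_) h2
  funext Y
  ring

/-- PIECE POLY -/
theorem p_POLY : S_POLY := by
  intro n v N M r U _
  have h1 : ∀ j l, IsPol ((v + 1) ^ 2) (fun Y => 1 - H r (U j l) Y / M) := by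
    intro j l
    have h2 := (isPol_const (n := n) M⁻¹).mul (isPol_H r (U j l))
    rw [zero_add] at h2
    refine cast (congrArg (IsPol _) ?_) (isPol_one_sub h2)
    funext Y
    rw [div_eq_inv_mul]
  have h2 : ∀ j, IsPol (2 * (v + 1) ^ 2) (fun Y => 1 - ∏ l : Fin 2, (1 - H r (U j l) Y / M)) := by
    intro j
    have h3 := isPol_prod (Finset.univ : Finset (Fin 2)) (fun l Y => 1 - H r (U j l) Y / M)
      fun l _ => h1 j l
    rw [Finset.card_univ, Fintype.card_fin] at h3
    exact isPol_one_sub h3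
  have h3 := isPol_prod (Finset.univ : Finset (Fin 3))
    (fun j Y => 1 - ∏ l : Fin 2, (1 - H r (U j l) Y / M)) fun j _ => h2 j
  rw [Finset.card_univ, Fintype.card_fin] at h3
  obtain ⟨f, hf1, hf2⟩ := h3
  exact ⟨f, hf1.trans (by omega), hf2⟩

end Pool.Agent.W2helper57.LD
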